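import Pool.Agent.W2helper20.KS.Stm
import Pool.Agent.W2helper25.KB.Pair

/-!
# Piece PAIR of project KS

The pairing of a divergence free bivector field with a closed 2-form which is almost normal on the
sphere.
-/

set_option autoImplicit false

namespace Pool.Agent.W2helper27.KS

open Set Metric MeasureTheory Filter Topology
open scoped ContDiff InnerProductSpace ENNReal
open Pool.Agent.Q176.BR Pool.Agent.W2helper25.KB Pool.Agent.W2helper20.KS

theorem p_PAIR : P_PAIR := by
  intro hDIV hALG n hn
  obtain ⟨c, hc0, hc⟩ := hDIV n (by omega)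
  refine ⟨c * (n : ℝ) ^ 2, by positivity, ?_⟩
  intro P B p δ hP hB hPa hBa hPd hBc hPp hBδ
  have hp0 : 0 ≤ p := by
    have h0 := hPp 0 (by simp) ⟨0, by omega⟩ ⟨0, by omega⟩
    exact (abs_nonneg _).trans h0
  -- the bound for the boundary term
  have h1 : ∀ t ∈ Icc (0 : ℝ) 1, |∫ x in ball (0 : E n) 1, HT P B t x| ≤ c * ((n : ℝ) ^ 2 * p * δ) := by
    intro t ht
    have hmemc : ∀ x ∈ closedBall (0 : E n) 1, t • x ∈ closedBall (0 : E n) 1 := by
      intro x hx
      rw [mem_closedBall_zero_iff] at hx ⊢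
      rw [norm_smul, Real.norm_eq_abs, abs_of_nonneg ht.1]
      exact mul_le_one₀ ht.2 (norm_nonneg _) hx
    have hmem : ∀ x ∈ ball (0 : E n) 1, t • x ∈ ball (0 : E n) 1 := by
      intro x hx
      rw [mem_ball_zero_iff] at hx ⊢
      rw [norm_smul, Real.norm_eq_abs, abs_of_nonneg ht.1]
      exact (mul_le_of_le_one_left (norm_nonneg _) ht.2).trans_lt hx
    have h2 := hc (ZT P B t) ((n : ℝ) ^ 2 * p * δ) (contDiff_ZT hP hB t) (by
      intro x hx
      have hxM : x ∈ closedBall (0 : E n) 1 := by rw [mem_closedBall_zero_iff, hx]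
      have h3 := hALG n (fun i => x i) (fun i j => P i j (t • x)) (fun i j => B i j x)
        (fun i j => hPa _ (hmemc x hxM) i j) (fun i j => hBa _ hxM i j)
        (by
          have h4 := EuclideanSpace.real_norm_sq_eq x
          rw [hx] at h4
          simp only [← pow_two]
          rw [← h4]; norm_num)
      unfold ZT
      have h4 : ∀ k, x k * (t ^ (n - 3) * ∑ i, ∑ j, (x k * P i j (t • x) + x i * P j k (t • x) +
          x j * P k i (t • x)) * B i j x) = t ^ (n - 3) * (x k * ∑ i, ∑ j, (x k * P i j (t • x) +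
            x i * P j k (t • x) + x j * P k i (t • x)) * B i j x) := fun k => by ring
      simp only [h4, ← Finset.mul_sum]
      rw [h3, abs_mul, abs_of_nonneg (pow_nonneg ht.1 _)]
      have h5 : |∑ i, ∑ j, P i j (t • x) * (B i j x -
          (x i * (∑ a, x a * B a j x) - x j * (∑ a, x a * B a i x)))| ≤ ∑ _i : Fin n, ∑ _j : Fin n, p * δ := by
        refine (Finset.abs_sum_le_sum_abs _ _).trans (Finset.sum_le_sum fun i _ => ?_)
        refine (Finset.abs_sum_le_sum_abs _ _).trans (Finset.sum_le_sum fun j _ => ?_)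
        rw [abs_mul]
        exact mul_le_mul (hPp _ (hmemc x hxM) i j) (hBδ x hx i j) (abs_nonneg _) hp0
      have h6 : (∑ _i : Fin n, ∑ _j : Fin n, p * δ) = (n : ℝ) ^ 2 * p * δ := by
        simp only [Finset.sum_const, Finset.card_univ, Fintype.card_fin, nsmul_eq_mul]
        ring
      rw [h6] at h5
      exact (mul_le_of_le_one_left (abs_nonneg _) (pow_le_one₀ ht.1 ht.2)).trans h5)
    have h7 : ∫ x in ball (0 : E n) 1, HT P B t x =
        ∫ x in ball (0 : E n) 1, ∑ k, fderiv ℝ (ZT P B t k) x (bs k) := by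
      refine setIntegral_congr_fun measurableSet_ball fun x hx => ?_
      simp only [fderiv_ZT hP hB]
      rw [← Finset.mul_sum]
      have hpa : ∀ i j l, fderiv ℝ (P i j) (t • x) (bs l) = -fderiv ℝ (P j i) (t • x) (bs l) := by
        intro i j l
        have h3 : P i j =ᶠ[𝓝 (t • x)] fun y => -P j i y := by
          filter_upwards [isOpen_ball.mem_nhds (hmem x hx)] with y hy
          exact hPa y (ball_subset_closedBall hy) i j
        rw [h3.fderiv_eq, fderiv_fun_neg]
        rfl
      have h3 := alg_div t (fun i => x i) (fun i j => P i j (t • x)) (fun i j => B i j x)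
        (fun i j l => fderiv ℝ (P i j) (t • x) (bs l)) (fun i j l => fderiv ℝ (B i j) x (bs l))
        (fun i j => hPa _ (ball_subset_closedBall (hmem x hx)) i j) hpa (hPd _ (hmem x hx))
        (hBc x hx)
      unfold HT
      rw [← h3]
    rw [h7]
    exact h2
  have hI : Integrable (Function.uncurry fun (x : E n) (t : ℝ) => HT P B t x)
      ((volume.restrict (ball (0 : E n) 1)).prod (volume.restrict (Ioc (0 : ℝ) 1))) := by
    rw [Measure.prod_restrict]
    have h3 : IntegrableOn (Function.uncurry fun (x : E n) (t : ℝ) => HT P B t x)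
        (closedBall (0 : E n) 1 ×ˢ Icc (0 : ℝ) 1) (volume.prod volume) :=
      (continuous_HT hP hB).continuousOn.integrableOn_compact
        ((isCompact_closedBall _ _).prod isCompact_Icc)
    exact h3.mono_set (prod_mono ball_subset_closedBall Ioc_subset_Icc_self)
  have h4 : ∫ x in ball (0 : E n) 1, ∫ t in Ioc (0 : ℝ) 1, HT P B t x =
      ∫ t in Ioc (0 : ℝ) 1, ∫ x in ball (0 : E n) 1, HT P B t x := integral_integral_swap hI
  have h5 : ∫ x in ball (0 : E n) 1, ∑ i, ∑ j, P i j x * B i j x =
      ∫ x in ball (0 : E n) 1, ∫ t in Ioc (0 : ℝ) 1, HT P B t x := by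
    refine setIntegral_congr_fun measurableSet_ball fun x _ => ?_
    rw [← int_HT hn hP hB x, intervalIntegral.integral_of_le zero_le_one]
  rw [h5, h4]
  have h8 : ‖∫ t in Ioc (0 : ℝ) 1, ∫ x in ball (0 : E n) 1, HT P B t x‖ ≤
      c * ((n : ℝ) ^ 2 * p * δ) * (volume.real (Ioc (0 : ℝ) 1)) := by
    refine norm_setIntegral_le_of_norm_le_const (by simp) fun t ht => ?_
    rw [Real.norm_eq_abs]
    exact h1 t (Ioc_subset_Icc_self ht)
  rw [Real.norm_eq_abs] at h8
  refine h8.trans (le_of_eq ?_)
  simp
  ring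

end Pool.Agent.W2helper27.KS
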